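import Mathlib
import Pool.Agent.U689.AF.Fin

/-!
# Number fields with given automorphism group and no superfluous subfields

For every finite group `G`, every large `n` (depending only on `G`) and every finite set `S` of
primes there is a totally real tamely ramified number field `K` of degree `n * |G|` in which all
primes of `S` are totally split, whose group of automorphisms is isomorphic to `G`, and whose only
subfields are `ℚ` and the fixed fields of the groups of automorphisms of `K`.  (For `n = 1` this
would be the inverse Galois problem for `G`.)
-/

set_option autoImplicit false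

open NumberField

namespace Pool.Agent.Results.MP_dadaab_nt.AutomorphismGroups

/-- The rational prime `p` is totally split in the number field `K`: there are `[K : ℚ]` distinct
prime ideals of the ring of integers of `K` over `p`. -/
def TotallySplit (K : Type) [Field K] [NumberField K] (p : ℕ) : Prop :=
  ((Ideal.span {(p : ℤ)}).primesOver (𝓞 K)).ncard = Module.finrank ℚ K

/-- The number field `K` is tamely ramified over `ℚ`: no ramification index of a prime ideal of
the ring of integers of `K` over a rational prime `p` is divisible by `p`. -/
def Tame (K : Type) [Field K] [NumberField K] : Prop :=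
  ∀ p : ℕ, p.Prime → ∀ P : Ideal (𝓞 K), P.IsPrime → (p : 𝓞 K) ∈ P → ¬ p ∣ P.ramificationIdx ℤ

/-- Every subfield of `K` is the prime field or the fixed field of a group `U` of automorphisms
of the field `K`. -/
def OnlyFixedFields (K : Type) [Field K] : Prop :=
  ∀ F : Subfield K, F = ⊥ ∨ ∃ U : Subgroup (K ≃+* K), ∀ x, x ∈ F ↔ ∀ u ∈ U, u x = x

end Pool.Agent.Results.MP_dadaab_nt.AutomorphismGroups

open Pool.Agent.Results.MP_dadaab_nt.AutomorphismGroups in
theorem Pool.Agent.Results.MP_dadaab_nt.AutomorphismGroups.result :
    ∀ (G : Type) [Group G] [Finite G], ∃ n₀ : ℕ, ∀ n ≥ n₀, ∀ S : Finset ℕ,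
      (∀ p ∈ S, p.Prime) → ∃ (K : Type) (_ : Field K) (_ : NumberField K),
        Module.finrank ℚ K = n * Nat.card G ∧ Nonempty (G ≃* (K ≃+* K)) ∧
          OnlyFixedFields K ∧ IsTotallyReal K ∧ (∀ p ∈ S, TotallySplit K p) ∧ Tame K := by
  intro G _ _
  exact Pool.Agent.U689.AF.main G
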