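import Pool.Agent.U385.FR.Ram

/-!
# The inverse Galois problem and unramified primes

For every finite group `G` and every bound `b` there is a finite group `Γ` and an epimorphism
`π : Γ → G` with commutative kernel such that for **every** Galois extension `L/F` of number fields
with group `Γ` the subextension `K/F` with group `G` is unramified at all infinite places and has no
tame ramification at the primes of `F` of norm at most `b`: the ramification indices over these are
powers of the residue characteristic `p`, and they are `1` if `p` does not divide `|G|`.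

Hence the inverse Galois problem over a number field `F` is equivalent to the inverse Galois problem
for extensions of `F` with this restricted ramification. Over `ℚ`: if every finite group is a
Galois group over `ℚ`, then for every sequence `G₀, G₁, …` of finite groups there are totally real
Galois extensions `K₀, K₁, …` of `ℚ` with these groups such that for `i < j` no prime number that
is ramified in `K_i` and does not divide `|G_j|` is ramified in `K_j`.
-/

set_option autoImplicit false

open NumberField

namespace Pool.Agent.Results.MP_dadaab_nt.ForcedUnramified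

/-- The extension `K/F` of number fields is unramified at the infinite places, and for each nonzero
prime ideal `𝔭` of the ring of integers of `K` such that the prime ideal of `F` below `𝔭` has norm
at most `b`, the ramification index of `𝔭` over `F` is a power of the residue characteristic `p`,
and it is `1` if `p` does not divide the degree of `K/F`. -/
def Forced (F K : Type) [Field F] [NumberField F] [Field K] [NumberField K] [Algebra F K]
    (b : ℕ) : Prop :=
  (∀ w : InfinitePlace K, w.IsUnramified F) ∧
  ∀ 𝔭 : Ideal (𝓞 K), 𝔭.IsPrime → 𝔭 ≠ ⊥ → Ideal.absNorm (𝔭.under (𝓞 F)) ≤ b →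
    ∀ p : ℕ, p.Prime → (p : 𝓞 K) ∈ 𝔭 →
      (∃ k, 𝔭.ramificationIdx (𝓞 F) = p ^ k) ∧
      (¬ p ∣ Module.finrank F K → 𝔭.ramificationIdx (𝓞 F) = 1)

/-- `G` is the Galois group of a Galois extension of number fields `L/F`. -/
def IsGaloisGroupOver (F : Type) [Field F] [NumberField F] (G : Type) [Group G] : Prop :=
  ∃ (L : Type) (_ : Field L) (_ : NumberField L) (_ : Algebra F L),
    IsGalois F L ∧ Nonempty (G ≃* Gal(L/F))

/-- `G` is the Galois group of a Galois extension of number fields `K/F` which is `Forced F K b`. -/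
def IsForcedGaloisGroupOver (F : Type) [Field F] [NumberField F] (G : Type) [Group G] (b : ℕ) :
    Prop :=
  ∃ (K : Type) (_ : Field K) (_ : NumberField K) (_ : Algebra F K),
    IsGalois F K ∧ Nonempty (G ≃* Gal(K/F)) ∧ Forced F K b

/-- `G` is the image of a homomorphism `π : Γ → G` with commutative kernel from a finite group `Γ`
such that for all Galois extensions of number fields `L/F` with an isomorphism `e` of `Γ` with the
Galois group, the subfield `K` of `L` that is fixed by `e (ker π)` is a Galois extension of `F`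
with Galois group `G` which is `Forced F K b`. -/
def HasForcingCover (G : Type) [Group G] (b : ℕ) : Prop :=
  ∃ (Γ : Type) (_ : Group Γ) (_ : Finite Γ) (π : Γ →* G), Function.Surjective π ∧
    (∀ x y : Γ, π x = 1 → π y = 1 → x * y = y * x) ∧
    ∀ (F L : Type) [Field F] [NumberField F] [Field L] [NumberField L] [Algebra F L]
      [IsGalois F L] (e : Γ ≃* Gal(L/F)),
      ∃ K : IntermediateField F L, K.fixingSubgroup = π.ker.map e.toMonoidHom ∧
        IsGalois F K ∧ Nonempty (G ≃* Gal(K/F)) ∧ Forced F K b

end Pool.Agent.Results.MP_dadaab_nt.ForcedUnramified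

open Pool.Agent.Results.MP_dadaab_nt.ForcedUnramified in
theorem Pool.Agent.Results.MP_dadaab_nt.ForcedUnramified.result :
    (∀ (G : Type) [Group G] [Finite G] (b : ℕ), HasForcingCover G b) ∧
    -- the inverse Galois problem over the number field `F`
    (∀ (F : Type) [Field F] [NumberField F],
      (∀ (G : Type) [Group G] [Finite G], IsGaloisGroupOver F G) ↔
      ∀ (G : Type) [Group G] [Finite G] (b : ℕ), IsForcedGaloisGroupOver F G b) ∧
    -- sequences of totally real fields
    ((∀ (G : Type) [Group G] [Finite G], IsGaloisGroupOver ℚ G) →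
      ∀ (G : ℕ → Type) [∀ i, Group (G i)] [∀ i, Finite (G i)],
        ∃ (K : ℕ → Type) (_ : ∀ i, Field (K i)) (_ : ∀ i, NumberField (K i)),
          (∀ i, IsGalois ℚ (K i) ∧ Nonempty (G i ≃* Gal(K i/ℚ)) ∧ IsTotallyReal (K i)) ∧
          ∀ i j, i < j → ∀ p : ℕ, p.Prime → (p : ℤ) ∣ discr (K i) → (p : ℤ) ∣ discr (K j) →
            p ∣ Nat.card (G j)) := by
  have hA : ∀ (G : Type) [Group G] [Finite G] (b : ℕ), HasForcingCover G b := by
    intro G _ _ b
    have : Fintype G := Fintype.ofFinite G
    have hf := Pool.Agent.U385.FR.forcing_proj G (b + 1)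
    refine ⟨Pool.Agent.U385.FR.Flow G (Pool.Agent.U385.FR.modulus G (b + 1)), inferInstance,
      inferInstance, Pool.Agent.U385.FR.proj G _, hf.surj, hf.comm, ?_⟩
    intro F L _ _ _ _ _ _ e
    refine ⟨Pool.Agent.U385.FR.fixKer (Pool.Agent.U385.FR.proj G _) e,
      IntermediateField.fixingSubgroup_fixedField _, inferInstance, ?_, ?_⟩
    · obtain ⟨e', -⟩ := Pool.Agent.U385.FR.exists_equiv _ hf.surj e
      exact ⟨e'⟩
    · exact (Pool.Agent.U385.FR.forced_fixKer _ e (by omega) hf).mono (by omega)
  have hB : ∀ (F : Type) [Field F] [NumberField F],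
      (∀ (G : Type) [Group G] [Finite G], IsGaloisGroupOver F G) ↔
      ∀ (G : Type) [Group G] [Finite G] (b : ℕ), IsForcedGaloisGroupOver F G b := by
    intro F _ _
    constructor
    · intro h G _ _ b
      obtain ⟨Γ, i1, i2, π, -, -, hΓ⟩ := hA G b
      obtain ⟨L, j1, j2, j3, j4, ⟨e⟩⟩ := h Γ
      obtain ⟨K, -, h1, h2, h3⟩ := hΓ F L e
      exact ⟨K, inferInstance, inferInstance, inferInstance, h1, h2, h3⟩
    · intro h G _ _
      obtain ⟨K, i1, i2, i3, h1, h2, -⟩ := h G 0
      exact ⟨K, i1, i2, i3, h1, h2⟩
  refine ⟨hA, hB, fun h G _ _ => ?_⟩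
  have h1 : ∀ (i b : ℕ), ∃ (K : Type) (_ : Field K) (_ : NumberField K),
      IsGalois ℚ K ∧ Nonempty (G i ≃* Gal(K/ℚ)) ∧ Forced ℚ K b := by
    intro i b
    obtain ⟨K, i1, i2, i3, h1⟩ := (hB ℚ).1 h (G i) b
    obtain rfl : i3 = DivisionRing.toRatAlgebra := Subsingleton.elim _ _
    exact ⟨K, i1, i2, h1⟩
  choose K i1 i2 h2 h3 h4 using h1
  let B : ℕ → ℕ := fun j => Nat.rec 0 (fun j b => max b (discr (K j b)).natAbs) j
  have hB1 : ∀ j, B (j + 1) = max (B j) (discr (K j (B j))).natAbs := fun _ => rfl
  have hB2 : Monotone B := monotone_nat_of_le_succ fun j => by rw [hB1]; exact le_max_left _ _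
  refine ⟨fun j => K j (B j), fun j => i1 j (B j), fun j => i2 j (B j), fun j => ⟨h2 _ _, h3 _ _,
    Pool.Agent.U385.FR.totallyReal_of_forced (h4 j (B j))⟩, ?_⟩
  intro i j hij p hp hpi hpj
  by_contra hcon
  have h5 : p ≤ B j := by
    have h6 : p ≤ (discr (K i (B i))).natAbs :=
      Nat.le_of_dvd (Int.natAbs_pos.2 (discr_ne_zero _)) (Int.natCast_dvd.1 hpi)
    have h7 : B (i + 1) ≤ B j := hB2 (show i + 1 ≤ j by omega)
    have h8 : (discr (K i (B i))).natAbs ≤ B (i + 1) := by rw [hB1]; exact le_max_right _ _
    omega
  refine Pool.Agent.U385.FR.discr_of_forced (h4 j (B j)) p hp h5 ?_ hpj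
  have := h2 j (B j)
  rw [← IsGalois.card_aut_eq_finrank ℚ (K j (B j)), ← Nat.card_congr (h3 j (B j)).some.toEquiv]
  exact hcon
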