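import Mathlib
import Pool.Agent.U919.LS.Fin

/-!
# The lattices of subfields of number fields

If a finite group `G` is the Galois group of an extension `L` of `ℚ`, then the lattice of the
subfields of the fixed field of a subgroup `H` is anti-isomorphic to the lattice of the subgroups
between `H` and `G`.  We prove without any hypothesis that for every finite group `G`, every
subgroup `H` and every finite set `S` of primes there are totally real, tamely ramified number
fields `K`, `K'` in which all primes of `S` are totally split, such that the lattice of the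
subfields of `K` is anti-isomorphic and the lattice of the subfields of `K'` is isomorphic to the
lattice of the subgroups between `H` and `G`.  Moreover, no subfield of `K` or `K'` has a
nontrivial automorphism.

So a partially ordered set is the lattice of the subfields of a number field if and only if it is
an interval `[H, G]` in the lattice of the subgroups of a finite group `G`, and the same holds
for the lattices of the intermediate fields of the finite separable extensions of any Hilbertian
field `k`: all Hilbertian fields have the same lattices.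
-/

set_option autoImplicit false

open NumberField

namespace Pool.Agent.Results.MP_dadaab_nt.LatticesOfSubfields

/-- The rational prime `p` is totally split in the number field `K`: there are `[K : ℚ]` distinct
prime ideals of the ring of integers of `K` over `p`. -/
def TotallySplit (K : Type) [Field K] [NumberField K] (p : ℕ) : Prop :=
  ((Ideal.span {(p : ℤ)}).primesOver (𝓞 K)).ncard = Module.finrank ℚ K

/-- The number field `K` is tamely ramified over `ℚ`: no ramification index of a prime ideal of
the ring of integers of `K` over a rational prime `p` is divisible by `p`. -/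
def Tame (K : Type) [Field K] [NumberField K] : Prop :=
  ∀ p : ℕ, p.Prime → ∀ P : Ideal (𝓞 K), P.IsPrime → (p : 𝓞 K) ∈ P → ¬ p ∣ P.ramificationIdx ℤ

/-- The field `F` has no nontrivial automorphism. -/
def Rigid (F : Type) [Field F] : Prop :=
  ∀ (σ : F ≃+* F) (x : F), σ x = x

/-- No subfield of `K` has a nontrivial automorphism. -/
def RigidSubfields (K : Type) [Field K] : Prop :=
  ∀ F : Subfield K, Rigid F

/-- `K` is totally real, tamely ramified, totally split at all primes in `S`, and no subfield of
`K` has a nontrivial automorphism. -/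
def Good (S : Finset ℕ) (K : Type) [Field K] [NumberField K] : Prop :=
  IsTotallyReal K ∧ (∀ p ∈ S, TotallySplit K p) ∧ Tame K ∧ RigidSubfields K

/-- `P` is isomorphic to an interval `[H, G]` in the lattice of the subgroups of a finite group
`G`. -/
def IsInterval (P : Type) [PartialOrder P] : Prop :=
  ∃ (G : Type) (_ : Group G) (_ : Finite G) (H : Subgroup G),
    Nonempty (P ≃o {Y : Subgroup G // H ≤ Y})

/-- Hilbertian fields: for every monic irreducible polynomial `f` over `k[t]` which is separable
over `k(t)` and every nonzero `g` in `k[t]` there is `a` in `k` with `g(a) ≠ 0` such that `f(a)` is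
irreducible over `k`. -/
def Hilbertian (k : Type) [Field k] : Prop :=
  ∀ f : Polynomial (Polynomial k), f.Monic → Irreducible f →
    (f.map (algebraMap (Polynomial k) (FractionRing (Polynomial k)))).Separable →
    ∀ g : Polynomial k, g ≠ 0 →
      ∃ a : k, g.eval a ≠ 0 ∧ Irreducible (f.map (Polynomial.evalRingHom a))

end Pool.Agent.Results.MP_dadaab_nt.LatticesOfSubfields

open Pool.Agent.Results.MP_dadaab_nt.LatticesOfSubfields Pool.Agent.U919.LS in
theorem Pool.Agent.Results.MP_dadaab_nt.LatticesOfSubfields.result :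
    (∀ (G : Type) [Group G] [Finite G] (H : Subgroup G) (S : Finset ℕ), (∀ p ∈ S, p.Prime) →
      (∃ (K : Type) (_ : Field K) (_ : NumberField K),
        Nonempty (Subfield K ≃o {Y : Subgroup G // H ≤ Y}ᵒᵈ) ∧ Good S K) ∧
      (∃ (K : Type) (_ : Field K) (_ : NumberField K),
        Nonempty (Subfield K ≃o {Y : Subgroup G // H ≤ Y}) ∧ Good S K)) ∧
    (∀ (P : Type) [PartialOrder P],
      (∃ (K : Type) (_ : Field K) (_ : NumberField K), Nonempty (P ≃o Subfield K)) ↔
        IsInterval P) ∧
    (∀ (k : Type) [Field k], Hilbertian k → ∀ (P : Type) [PartialOrder P],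
      (∃ (K : Type) (_ : Field K) (_ : Algebra k K), FiniteDimensional k K ∧
        Algebra.IsSeparable k K ∧ Nonempty (P ≃o IntermediateField k K)) ↔ IsInterval P) := by
  have h1 : ∀ (G : Type) [Group G] [Finite G] (H : Subgroup G) (S : Finset ℕ),
      (∀ p ∈ S, p.Prime) → ∃ (K : Type) (_ : Field K) (_ : NumberField K),
        Nonempty (Subfield K ≃o {Y : Subgroup G // H ≤ Y}) ∧ Good S K := by
    intro G _ _ H S hS
    obtain ⟨B, j1, j2, U, hU, ⟨g⟩⟩ := dual_group G H
    obtain ⟨K, i1, i2, ⟨f⟩, h2, h3, h4, h5⟩ := nf B hU S hS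
    exact ⟨K, i1, i2, ⟨f.trans g.symm.dual⟩, h2, h3, h4, h5⟩
  have h2 : ∀ (G : Type) [Group G] [Finite G] (H : Subgroup G) (S : Finset ℕ),
      (∀ p ∈ S, p.Prime) → ∃ (K : Type) (_ : Field K) (_ : NumberField K),
        Nonempty (Subfield K ≃o {Y : Subgroup G // H ≤ Y}ᵒᵈ) ∧ Good S K := by
    intro G _ _ H S hS
    obtain ⟨B, j1, j2, U, hU, ⟨g⟩⟩ := dual_group G H
    obtain ⟨K, i1, i2, ⟨f⟩, h3⟩ := h1 B U S hS
    exact ⟨K, i1, i2, ⟨f.trans g.symm⟩, h3⟩
  refine ⟨fun G _ _ H S hS => ⟨h2 G H S hS, h1 G H S hS⟩, ?_, ?_⟩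
  · intro P _
    constructor
    · rintro ⟨K, i1, i2, ⟨f⟩⟩
      obtain ⟨G, j1, j2, H, ⟨g⟩⟩ := group_of_conv ℚ K
      exact ⟨G, j1, j2, H, ⟨f.trans ((ratIso K).trans g)⟩⟩
    · rintro ⟨G, j1, j2, H, ⟨f⟩⟩
      obtain ⟨K, i1, i2, ⟨g⟩, -⟩ := h1 G H ∅ (by simp)
      exact ⟨K, i1, i2, ⟨f.trans g.symm⟩⟩
  · intro k _ hk P _
    constructor
    · rintro ⟨K, i1, i2, i3, i4, ⟨f⟩⟩
      obtain ⟨G, j1, j2, H, ⟨g⟩⟩ := group_of_conv k K
      exact ⟨G, j1, j2, H, ⟨f.trans g⟩⟩
    · rintro ⟨G, j1, j2, H, ⟨f⟩⟩
      obtain ⟨B, j3, j4, U, hU, ⟨g⟩⟩ := dual_group G H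
      obtain ⟨K, i1, i2, i3, i4, ⟨e⟩, -⟩ := hil k hk B hU
      exact ⟨K, i1, i2, i3, i4, ⟨f.trans (e.trans g.symm.dual).symm⟩⟩
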