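import Mathlib
import Pool.Agent.U301.PA.Lim
import Pool.Agent.U301.PA.Loc
import Pool.Agent.TH377.IG.Final

/-!
# The automorphism groups of the algebraic extensions of `ℚ` are the second countable profinite
groups

For an algebraic extension `F` of `ℚ` the automorphism group `Aut(F) = Aut(F/ℚ)` with its Krull
topology (the fixing subgroups of finite subextensions are a basis at `1`) is a second countable
profinite group.  We prove that every second countable profinite group `Γ` occurs.  Given a finite
set `S` of primes and a number field `M`, the field `F` can be chosen totally real, with only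
rational elements in common with `M`, with bounded local degrees at every prime, and such that every
embedding of `F` into `ℚ̄_p` has image in `ℚ_p` for all `p` in `S`.

The proof: choose open normal subgroups `U_0 ⊇ U_1 ⊇ ...` of `Γ` with trivial intersection, put
`G_j = Γ/U_j`, `Q_j = (S_3 × S_3)^(G_j) ⋊ G_j`, and take a Galois extension `L` of `ℚ` with group
`P = ∏ Q_j ≀ S_(n_j)` with local properties from the earlier result `InfiniteProductsLocal`.  In `P`
let `D` be the closed subgroup of all elements whose `j`-th permutation fixes the first index, and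
whose components `q_j` in `Q_j` at the first index are compatible: the images of `q_j` in `G_j` form
an element of `Γ`, and the first `S_3`-part of `q_(j+1)` is the pull back of the second `S_3`-part
of `q_j`.  The normalizer in `P` of the kernel `H` of `D → Γ` is `D`, so `N(H)/H = D/H = Γ`, and `F`
is the fixed field of `H`.
-/

set_option autoImplicit false

namespace Pool.Agent.Results.MP_dadaab_nt.ProfiniteAutomorphismGroups

/-- In every field containing `F` and `M` their common elements are rational. -/
def OnlyRationalInCommon (F M : Type) [Field F] [Algebra ℚ F] [Field M] : Prop :=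
  ∀ (X : Type) [Field X] (a : F →+* X) (b : M →+* X) (x : F) (y : M), a x = b y →
    x ∈ (algebraMap ℚ F).range

/-- For every embedding `s` of `F` into the algebraic closure of `ℚ_p` all elements of `s F` have
degree at most `N` over `ℚ_p`.  For `N = 1` this says that all these embeddings have image in
`ℚ_p`. -/
def LocalDegreesAtMost (F : Type) [Field F] (p : ℕ) [Fact p.Prime] (N : ℕ) : Prop :=
  ∀ (s : F →+* AlgebraicClosure ℚ_[p]) (x : F), (minpoly ℚ_[p] (s x)).natDegree ≤ N

end Pool.Agent.Results.MP_dadaab_nt.ProfiniteAutomorphismGroups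

open Pool.Agent.U301.PA Pool.Agent.H391R2 IntermediateField
open Pool.Agent.Results.MP_dadaab_nt.ProfiniteAutomorphismGroups in
/-- Every second countable profinite group is the automorphism group of an algebraic extension of
`ℚ` with strong local properties, and the automorphism group of every algebraic extension of `ℚ` is
a second countable profinite group. -/
theorem Pool.Agent.Results.MP_dadaab_nt.ProfiniteAutomorphismGroups.result :
    (∀ (Γ : Type) [Group Γ] [TopologicalSpace Γ] [IsTopologicalGroup Γ] [CompactSpace Γ]
      [TotallyDisconnectedSpace Γ] [SecondCountableTopology Γ]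
      (M : Type) [Field M] [NumberField M] (S : Finset ℕ),
      ∃ (F : Type) (_ : Field F) (_ : Algebra ℚ F),
        Algebra.IsAlgebraic ℚ F ∧ NumberField.IsTotallyReal F ∧ OnlyRationalInCommon F M ∧
        (∀ (p : ℕ) [Fact p.Prime], ∃ N, LocalDegreesAtMost F p N ∧ (p ∈ S → N = 1)) ∧
        Nonempty (Γ ≃ₜ* (F ≃ₐ[ℚ] F))) ∧
    ∀ (F : Type) [Field F] [Algebra ℚ F] [Algebra.IsAlgebraic ℚ F],
      CompactSpace (F ≃ₐ[ℚ] F) ∧ TotallyDisconnectedSpace (F ≃ₐ[ℚ] F) ∧
        SecondCountableTopology (F ≃ₐ[ℚ] F) := by
  constructor
  · intro Γ _ _ _ _ _ _ M _ _ S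
    obtain ⟨U, hUn, hUo, hle, hU⟩ := exists_chain (Γ := Γ)
    have hfin : ∀ j, Finite (Γ ⧸ U j) := fun j =>
      Subgroup.quotient_finite_of_isOpen (U j) (hUo j)
    obtain ⟨n₀, C₀, hmain⟩ := Pool.Agent.TH377.IG.main_thm
    obtain ⟨L, _, _, _, e, he, hreal, hM, hloc⟩ := hmain ℕ (fun j => QQ (Γ ⧸ U j))
      (fun _ => 0) (fun j => n₀ (QQ (Γ ⧸ U j)) + 3) (fun _ => Nat.zero_le _)
      (fun j => by rw [mul_zero, add_zero]; exact Nat.le_add_right _ _) (fun _ => S)
      (fun _ _ _ => 1) (fun _ p _ _ => by
        rw [MonoidHom.ker_one]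
        exact isOpen_univ) M
    obtain ⟨H, hH⟩ := realize (K := ℚ) (L := L) hUo hle hU
      (m := fun j => n₀ (QQ (Γ ⧸ U j))) e he
    have halg : Algebra.IsAlgebraic (fixedField H) L :=
      IntermediateField.isAlgebraic_tower_top (K := ℚ)
    have hext : ∀ (Ω : Type) [Field Ω] [IsAlgClosed Ω] (s : fixedField H →+* Ω),
        ∃ s' : L →+* Ω, ∀ x : fixedField H, s' (x : L) = s x := by
      intro Ω _ _ s
      let _ : Algebra (fixedField H) Ω := s.toAlgebra
      let s' : L →ₐ[fixedField H] Ω := IsAlgClosed.lift
      exact ⟨s'.toRingHom, fun x => s'.commutes x⟩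
    refine ⟨fixedField H, inferInstance, (fixedField H).algebra', ?_, ?_, ?_, ?_, hH⟩
    · exact IntermediateField.isAlgebraic_tower_bot
    · exact NumberField.IsTotallyReal.of_algebra (fixedField H) L
    · intro X _ a b x y hxy
      obtain ⟨a', ha'⟩ := hext (AlgebraicClosure X) ((algebraMap X (AlgebraicClosure X)).comp a)
      have h1 : a' (x : L) = ((algebraMap X (AlgebraicClosure X)).comp b) y := by
        rw [ha', RingHom.comp_apply, RingHom.comp_apply, hxy]
      obtain ⟨q, hq⟩ := hM _ a' _ (x : L) y h1
      refine ⟨q, Subtype.ext ?_⟩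
      rw [← hq]
      rfl
    · intro p _
      obtain ⟨σ, D, hD, h1, h2⟩ := hloc p
      have hr : (Set.range D).Finite := by
        have : Finite {i | p ∉ S ∧ ∃ τ, e (D τ) i ≠ 1} := h2.to_subtype
        have hW : ∀ i : {i | p ∉ S ∧ ∃ τ, e (D τ) i ≠ 1},
            Finite (Wr (QQ (Γ ⧸ U i)) (n₀ (QQ (Γ ⧸ U i)) + 3)) := fun i =>
          Finite.of_equiv _ (SemidirectProduct.equivProd).symm
        refine Set.Finite.of_finite_image (f := fun g =>
          (fun i : {i | p ∉ S ∧ ∃ τ, e (D τ) i ≠ 1} => e g i)) (Set.toFinite _) ?_
        rintro _ ⟨τ, rfl⟩ _ ⟨τ', rfl⟩ h3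
        apply e.injective
        funext i
        by_cases hi : i ∈ {i | p ∉ S ∧ ∃ τ, e (D τ) i ≠ 1}
        · exact congrFun h3 ⟨i, hi⟩
        · have h4 : ∀ τ, e (D τ) i = 1 := by
            intro τ
            by_cases hp : p ∈ S
            · exact (h1 i hp τ).2 rfl
            · by_contra h5
              exact hi ⟨hp, τ, h5⟩
          rw [h4, h4]
      refine ⟨(Set.range D).ncard, fun s x => ?_, fun hp => ?_⟩
      · obtain ⟨s', hs'⟩ := hext _ s
        rw [← hs']
        exact degree_le σ D hD hr s' (x : L)
      · have h3 : Set.range D = {1} := by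
          ext g
          constructor
          · rintro ⟨τ, rfl⟩
            rw [Set.mem_singleton_iff]
            apply e.injective
            funext i
            rw [map_one]
            exact ((h1 i hp τ).2 rfl)
          · rintro rfl
            exact ⟨1, map_one D⟩
        rw [h3, Set.ncard_singleton]
  · intro F _ _ _
    have hc : CompactSpace (F ≃ₐ[ℚ] F) := compact_aut
    have h1 : Countable F := by
      rw [← Cardinal.mk_le_aleph0_iff]
      refine (Algebra.IsAlgebraic.cardinalMk_le_max ℚ F).trans (max_le ?_ le_rfl)
      exact Cardinal.mk_le_aleph0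
    exact ⟨hc, inferInstance, secondCountable_aut⟩
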